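import Mathlib
import Pool.Agent.Y982.CB.Fin
import Pool.Agent.Results.MP_233b81_lc.AntichainNegative
import Pool.Agent.Results.MP_233b81_lc.ChainNegative

/-!
# Which countable `Π⁰₁` classes are classes of decompositions of a computable poset?

A countable computably bounded `Π⁰₁` class represents the class of decompositions of some
computable poset into `k` chains (into `k` antichains) for some `k` if and only if it is finite.
No countably infinite set of functions does, for either coding of the decompositions, and not even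
up to permutations of the colours. Moreover a set with at least two members does not if one of its
members is not Turing equivalent to any other member (this excludes many uncountable classes).
-/

set_option autoImplicit false

open scoped Computability

namespace Pool.Agent.Results.MP_233b81_lc.CountableClasses

/-- A tree: a set of finite strings closed under initial segments. -/
def IsTree (T : Set (List ℕ)) : Prop := ∀ σ τ : List ℕ, σ <+: τ → τ ∈ T → σ ∈ T

/-- The initial segment of `x` of length `n`. -/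
def restrict (x : ℕ → ℕ) (n : ℕ) : List ℕ := (List.range n).map x

/-- The set `[T]` of infinite paths of `T`. -/
def paths (T : Set (List ℕ)) : Set (ℕ → ℕ) := {x | ∀ n, restrict x n ∈ T}

/-- Computably bounded `Π⁰₁` classes. -/
def IsCBClass (P : Set (ℕ → ℕ)) : Prop :=
  ∃ T : Set (List ℕ), IsTree T ∧ ComputablePred (fun σ : List ℕ => σ ∈ T) ∧
    (∃ g : List ℕ → ℕ, Computable g ∧ ∀ (σ : List ℕ) (i : ℕ), σ ++ [i] ∈ T → i < g σ) ∧
    P = paths T

/-- `Q` represents `P`: there is a bijection from `P` to `Q` preserving Turing degrees. -/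
def Represents (Q P : Set (ℕ → ℕ)) : Prop :=
  ∃ F : P ≃ Q, ∀ f : P, ((F f : ℕ → ℕ) : ℕ →. ℕ) ≡ᵀ ((f : ℕ → ℕ) : ℕ →. ℕ)

/-- A computable partial ordering `(A, R)`. -/
structure IsComputablePoset (A : Set ℕ) (R : ℕ → ℕ → Prop) : Prop where
  computable_set : ComputablePred (fun a : ℕ => a ∈ A)
  computable_rel : ComputablePred (fun p : ℕ × ℕ => R p.1 p.2)
  sub : ∀ a b, R a b → a ∈ A ∧ b ∈ A
  refl : ∀ a ∈ A, R a a
  antisymm : ∀ a b, R a b → R b a → a = b
  trans : ∀ a b c, R a b → R b c → R a c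

/-- The maps whose restriction to `A` is a decomposition of `(A, R)` into `k` chains. -/
def chainDecs (A : Set ℕ) (R : ℕ → ℕ → Prop) (k : ℕ) : Set (ℕ → ℕ) :=
  {f | (∀ a ∈ A, f a < k) ∧ ∀ a ∈ A, ∀ b ∈ A, f a = f b → R a b ∨ R b a}

/-- The maps whose restriction to `A` is a decomposition of `(A, R)` into `k` antichains. -/
def antichainDecs (A : Set ℕ) (R : ℕ → ℕ → Prop) (k : ℕ) : Set (ℕ → ℕ) :=
  {f | (∀ a ∈ A, f a < k) ∧ ∀ a ∈ A, ∀ b ∈ A, a ≠ b → (R a b ∨ R b a) → f a ≠ f b}

/-- First coding: a map `f` on `A` is viewed as `n ↦ f (e n)`, through an enumeration `e` of `A`. -/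
def viaEnum (D : Set (ℕ → ℕ)) (e : ℕ → ℕ) : Set (ℕ → ℕ) := {x | ∃ f ∈ D, ∀ n, x n = f (e n)}

/-- Second coding: a map `f` on `A` is extended by `0` outside `A`. -/
def viaZero (D : Set (ℕ → ℕ)) (A : Set ℕ) : Set (ℕ → ℕ) := {x | x ∈ D ∧ ∀ n, n ∉ A → x n = 0}

/-- `P` represents `D` up to permutations of the colours: there is a degree-preserving map `F` from
`P` to `D` such that each member of `D` agrees on `B` with `σ ∘ F p` for some permutation `σ` of the
colours, for exactly one `p` in `P`. -/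
def RepresentsUpToPerm (P D : Set (ℕ → ℕ)) (B : Set ℕ) : Prop :=
  ∃ F : P → D, (∀ p : P, ((F p : ℕ → ℕ) : ℕ →. ℕ) ≡ᵀ ((p : ℕ → ℕ) : ℕ →. ℕ)) ∧
    ∀ x : D, ∃! p : P, ∃ σ : Equiv.Perm ℕ, ∀ n ∈ B, (x : ℕ → ℕ) n = σ ((F p : ℕ → ℕ) n)

/-- `P` represents the class of decompositions (chains or antichains, according to `dec`) of some
computable poset into some number `k ≥ 1` of parts, in the second coding. -/
def Realized (dec : Set ℕ → (ℕ → ℕ → Prop) → ℕ → Set (ℕ → ℕ)) (P : Set (ℕ → ℕ)) : Prop :=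
  ∃ (A : Set ℕ) (R : ℕ → ℕ → Prop) (k : ℕ), IsComputablePoset A R ∧ 1 ≤ k ∧
    Represents P (viaZero (dec A R k) A)

/-- The same in the first coding, for some computable enumeration of `A`. -/
def RealizedEnum (dec : Set ℕ → (ℕ → ℕ → Prop) → ℕ → Set (ℕ → ℕ)) (P : Set (ℕ → ℕ)) : Prop :=
  ∃ (A : Set ℕ) (R : ℕ → ℕ → Prop) (k : ℕ) (e : ℕ → ℕ), IsComputablePoset A R ∧ 1 ≤ k ∧
    Computable e ∧ Set.range e = A ∧ Represents P (viaEnum (dec A R k) e)

/-- `P` represents no class of decompositions of a computable poset, in either coding, and not even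
up to permutations of the colours. -/
def AvoidsAll (dec : Set ℕ → (ℕ → ℕ → Prop) → ℕ → Set (ℕ → ℕ)) (P : Set (ℕ → ℕ)) : Prop :=
  ∀ (A : Set ℕ) (R : ℕ → ℕ → Prop), IsComputablePoset A R → ∀ k : ℕ,
    (¬ Represents P (viaZero (dec A R k) A) ∧ ¬ RepresentsUpToPerm P (viaZero (dec A R k) A) A) ∧
      ∀ e : ℕ → ℕ, Set.range e = A →
        ¬ Represents P (viaEnum (dec A R k) e) ∧
        ¬ RepresentsUpToPerm P (viaEnum (dec A R k) e) Set.univ

/-! ### Countably infinite sets -/

theorem countable_of_represents {P D : Set (ℕ → ℕ)} (hc : P.Countable) (hi : P.Infinite)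
    (F : D ≃ P) : D.Countable ∧ D.Infinite := by
  have h1 : Countable P := hc.to_subtype
  have h2 : Infinite P := hi.to_subtype
  exact ⟨Set.countable_coe_iff.mp F.injective.countable,
    Set.infinite_coe_iff.mp (Infinite.of_injective F.symm F.symm.injective)⟩

theorem avoids_of {dec : Set ℕ → (ℕ → ℕ → Prop) → ℕ → Set (ℕ → ℕ)}
    (hlt : ∀ A R k, ∀ f ∈ dec A R k, ∀ a ∈ A, f a < k)
    (hz : ∀ A R, IsComputablePoset A R → ∀ k, (viaZero (dec A R k) A).Countable →
      (viaZero (dec A R k) A).Infinite → False)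
    (he : ∀ A R, IsComputablePoset A R → ∀ k (e : ℕ → ℕ), Set.range e = A →
      (viaEnum (dec A R k) e).Countable → (viaEnum (dec A R k) e).Infinite → False)
    {P : Set (ℕ → ℕ)} (hc : P.Countable) (hi : P.Infinite) : AvoidsAll dec P := by
  refine fun A R h k => ⟨⟨?_, ?_⟩, fun e hr => ⟨?_, ?_⟩⟩
  · rintro ⟨F, -⟩
    obtain ⟨h1, h2⟩ := countable_of_represents hc hi F
    exact hz A R h k h1 h2
  · intro H
    obtain ⟨h1, h2⟩ := ChainNegative.countable_of_upto (k := k) hc hi
      (fun x hx n hn => hlt A R k x hx.1 n hn) (fun x hx n hn => hx.2 n hn) H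
    exact hz A R h k h1 h2
  · rintro ⟨F, -⟩
    obtain ⟨h1, h2⟩ := countable_of_represents hc hi F
    exact he A R h k e hr h1 h2
  · intro H
    obtain ⟨h1, h2⟩ := ChainNegative.countable_of_upto (k := k) hc hi
      (fun x hx n _ => by
        obtain ⟨f, hf, hfe⟩ := hx
        rw [hfe]
        exact hlt A R k f hf _ (hr ▸ Set.mem_range_self n)) (fun x _ n hn => absurd trivial hn) H
    exact he A R h k e hr h1 h2

theorem IsComputablePoset.toC {A : Set ℕ} {R : ℕ → ℕ → Prop} (h : IsComputablePoset A R) :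
    ChainNegative.IsComputablePoset A R :=
  ⟨h.1, h.2, h.3, h.4, h.5, h.6⟩

theorem IsComputablePoset.toA {A : Set ℕ} {R : ℕ → ℕ → Prop} (h : IsComputablePoset A R) :
    AntichainNegative.IsComputablePoset A R :=
  ⟨h.1, h.2, h.3, h.4, h.5, h.6⟩

theorem avoids_chain {P : Set (ℕ → ℕ)} (hc : P.Countable) (hi : P.Infinite) :
    AvoidsAll chainDecs P :=
  avoids_of (fun _ _ _ _ hf => hf.1)
    (fun _ _ h k h1 h2 => ChainNegative.zero_case h.toC k h1 h2)
    (fun _ _ h k e hr h1 h2 => ChainNegative.enum_case h.toC k e hr h1 h2) hc hi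

theorem avoids_antichain {P : Set (ℕ → ℕ)} (hc : P.Countable) (hi : P.Infinite) :
    AvoidsAll antichainDecs P :=
  avoids_of (fun _ _ _ _ hf => hf.1)
    (fun A R h k h1 h2 => AntichainNegative.zero_case (P := AntichainNegative.decZero A R k)
      h1 h2 h.toA k (Equiv.refl _))
    (fun A R h k e hr h1 h2 => AntichainNegative.enum_case
      (P := AntichainNegative.decEnum A R k e) h1 h2 h.toA k e hr (Equiv.refl _)) hc hi

/-! ### Finite classes -/

theorem equivalent_of_computable {x y : ℕ → ℕ} (hx : Computable x) (hy : Computable y) :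
    (x : ℕ →. ℕ) ≡ᵀ (y : ℕ →. ℕ) :=
  ⟨Partrec.turingReducible hx.partrec, Partrec.turingReducible hy.partrec⟩

theorem represents_of_equiv {P D : Set (ℕ → ℕ)} (hP : ∀ x ∈ P, Computable x)
    (hD : ∀ x ∈ D, Computable x) (F : D ≃ P) : Represents P D :=
  ⟨F, fun f => equivalent_of_computable (hP _ (F f).2) (hD _ f.2)⟩

theorem computable_members {P : Set (ℕ → ℕ)} (h : IsCBClass P) (hfin : P.Finite) {x : ℕ → ℕ}
    (hx : x ∈ P) : Computable x := by
  obtain ⟨T, h1, h2, ⟨g, h3, h4⟩, rfl⟩ := h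
  exact Y982.CB.computable_of_finite h1 h4 h2 h3 hfin hx

theorem single_poset : IsComputablePoset {a : ℕ | a = 0} (fun a b => a = 0 ∧ b = 0) where
  computable_set := (Primrec.eq.comp Primrec.id (Primrec.const 0)).computablePred
  computable_rel := PrimrecPred.computablePred
    ((Primrec.eq.comp Primrec.fst (Primrec.const 0)).and
      (Primrec.eq.comp Primrec.snd (Primrec.const 0)))
  sub _ _ h := h
  refl _ h := ⟨h, h⟩
  antisymm _ _ h _ := h.1.trans h.2.symm
  trans _ _ _ h h' := ⟨h.1, h'.2⟩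

/-- The class of decompositions of the one-element poset, second coding. -/
noncomputable def zeroEquiv (D : Set (ℕ → ℕ)) (k : ℕ) (hD : ∀ f, f ∈ D ↔ f 0 < k) :
    viaZero D {a : ℕ | a = 0} ≃ Fin k where
  toFun x := ⟨x.1 0, (hD _).1 x.2.1⟩
  invFun i := ⟨fun n => if n = 0 then i.1 else 0, (hD _).2 (by simp),
    fun n hn => if_neg hn⟩
  left_inv x := by
    apply Subtype.ext
    funext n
    by_cases hn : n = 0
    · subst hn; rfl
    · exact (if_neg hn).trans (x.2.2 n hn).symm
  right_inv i := by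
    apply Fin.ext
    rfl

/-- The class of decompositions of the one-element poset, first coding. -/
noncomputable def enumEquiv (D : Set (ℕ → ℕ)) (k : ℕ) (hD : ∀ f, f ∈ D ↔ f 0 < k) :
    viaEnum D (fun _ => 0) ≃ Fin k where
  toFun x := ⟨x.1 0, by
    obtain ⟨f, hf, hx⟩ := x.2
    rw [hx 0]
    exact (hD _).1 hf⟩
  invFun i := ⟨fun _ => i.1, fun _ => i.1, (hD _).2 i.2, fun _ => rfl⟩
  left_inv x := by
    apply Subtype.ext
    funext n
    obtain ⟨f, hf, hx⟩ := x.2
    show x.1 0 = x.1 n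
    rw [hx 0, hx n]
  right_inv i := by
    apply Fin.ext
    rfl

theorem realize {dec : Set ℕ → (ℕ → ℕ → Prop) → ℕ → Set (ℕ → ℕ)}
    (h1 : ∀ (k : ℕ) (f : ℕ → ℕ), f ∈ dec {a : ℕ | a = 0} (fun a b => a = 0 ∧ b = 0) k ↔ f 0 < k)
    (h2 : ∃ R, IsComputablePoset {a : ℕ | a < 2} R ∧ dec {a : ℕ | a < 2} R 1 = ∅)
    {P : Set (ℕ → ℕ)} (h : IsCBClass P) (hfin : P.Finite) : Realized dec P ∧ RealizedEnum dec P := by
  have hP : ∀ x ∈ P, Computable x := fun x hx => computable_members h hfin hx
  have : Finite P := hfin.to_subtype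
  rcases P.eq_empty_or_nonempty with he | hne
  · obtain ⟨R, hR, hd⟩ := h2
    have e0 : IsEmpty P := Set.isEmpty_coe_sort.2 he
    constructor
    · refine ⟨_, R, 1, hR, le_rfl, represents_of_equiv hP ?_ ?_⟩
      · rintro x ⟨hx, -⟩
        rw [hd] at hx
        exact absurd hx (Set.notMem_empty _)
      · have : IsEmpty (viaZero (dec {a : ℕ | a < 2} R 1) {a : ℕ | a < 2}) := by
          refine ⟨fun x => ?_⟩
          obtain ⟨x, hx, -⟩ := x
          rw [hd] at hx
          exact hx
        exact Equiv.equivOfIsEmpty _ _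
    · refine ⟨_, R, 1, fun n => n % 2, hR, le_rfl,
        (Primrec.nat_mod.comp Primrec.id (Primrec.const 2)).to_comp, ?_,
        represents_of_equiv hP ?_ ?_⟩
      · ext a
        constructor
        · rintro ⟨n, rfl⟩
          exact Nat.mod_lt _ (by norm_num)
        · intro ha
          exact ⟨a, Nat.mod_eq_of_lt ha⟩
      · rintro x ⟨f, hf, -⟩
        rw [hd] at hf
        exact absurd hf (Set.notMem_empty _)
      · have : IsEmpty (viaEnum (dec {a : ℕ | a < 2} R 1) fun n => n % 2) := by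
          refine ⟨fun x => ?_⟩
          obtain ⟨f, hf, -⟩ := x.2
          rw [hd] at hf
          exact hf
        exact Equiv.equivOfIsEmpty _ _
  · have hk : 1 ≤ Nat.card P := by
      have : Nonempty P := hne.to_subtype
      exact Nat.card_pos
    constructor
    · refine ⟨_, _, Nat.card P, single_poset, hk, represents_of_equiv hP ?_
        ((zeroEquiv _ _ (h1 _)).trans (Finite.equivFin P).symm)⟩
      rintro x ⟨-, hx⟩
      have e : x = fun n => if n = 0 then x 0 else 0 := by
        funext n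
        by_cases hn : n = 0
        · rw [if_pos hn, hn]
        · rw [if_neg hn]; exact hx n hn
      rw [e]
      exact (Primrec.ite (Primrec.eq.comp Primrec.id (Primrec.const 0)) (Primrec.const _)
        (Primrec.const _)).to_comp
    · refine ⟨_, _, Nat.card P, fun _ => 0, single_poset, hk, Computable.const 0, ?_,
        represents_of_equiv hP ?_ ((enumEquiv _ _ (h1 _)).trans (Finite.equivFin P).symm)⟩
      · ext a
        simp [eq_comm]
      · rintro x ⟨f, -, hx⟩
        have e : x = fun _ => f 0 := funext hx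
        rw [e]
        exact Computable.const _

theorem chain_single (k : ℕ) (f : ℕ → ℕ) :
    f ∈ chainDecs {a : ℕ | a = 0} (fun a b => a = 0 ∧ b = 0) k ↔ f 0 < k :=
  ⟨fun h => h.1 0 rfl, fun h => ⟨by rintro a (rfl : a = 0); exact h,
    fun a ha b hb _ => Or.inl ⟨ha, hb⟩⟩⟩

theorem antichain_single (k : ℕ) (f : ℕ → ℕ) :
    f ∈ antichainDecs {a : ℕ | a = 0} (fun a b => a = 0 ∧ b = 0) k ↔ f 0 < k :=
  ⟨fun h => h.1 0 rfl, fun h => ⟨by rintro a (rfl : a = 0); exact h,
    fun a ha b hb hab _ => absurd (Eq.trans ha (Eq.symm hb)) hab⟩⟩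

theorem chain_empty : ∃ R, IsComputablePoset {a : ℕ | a < 2} R ∧
    chainDecs {a : ℕ | a < 2} R 1 = ∅ := by
  refine ⟨fun a b => a = b ∧ b < 2, ⟨?_, ?_, ?_, ?_, ?_, ?_⟩, ?_⟩
  · exact (Primrec.nat_lt.comp Primrec.id (Primrec.const 2)).computablePred
  · exact PrimrecPred.computablePred ((Primrec.eq.comp Primrec.fst Primrec.snd).and
      (Primrec.nat_lt.comp Primrec.snd (Primrec.const 2)))
  · rintro a b ⟨rfl, h⟩; exact ⟨h, h⟩
  · intro a h; exact ⟨rfl, h⟩
  · rintro a b ⟨h, -⟩ -; exact h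
  · rintro a b c ⟨rfl, -⟩ h; exact h
  · refine Set.eq_empty_of_forall_notMem fun f hf => ?_
    have h0 := hf.1 0 (show 0 < 2 by norm_num)
    have h1 := hf.1 1 (show 1 < 2 by norm_num)
    have h2 := hf.2 0 (show 0 < 2 by norm_num) 1 (show 1 < 2 by norm_num) (by omega)
    omega

theorem antichain_empty : ∃ R, IsComputablePoset {a : ℕ | a < 2} R ∧
    antichainDecs {a : ℕ | a < 2} R 1 = ∅ := by
  refine ⟨fun a b => a ≤ b ∧ b < 2, ⟨?_, ?_, ?_, ?_, ?_, ?_⟩, ?_⟩
  · exact (Primrec.nat_lt.comp Primrec.id (Primrec.const 2)).computablePred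
  · exact PrimrecPred.computablePred ((Primrec.nat_le.comp Primrec.fst Primrec.snd).and
      (Primrec.nat_lt.comp Primrec.snd (Primrec.const 2)))
  · rintro a b ⟨h, h'⟩; exact ⟨lt_of_le_of_lt h h', h'⟩
  · intro a h; exact ⟨le_rfl, h⟩
  · rintro a b ⟨h, -⟩ ⟨h', -⟩; exact le_antisymm h h'
  · rintro a b c ⟨h, -⟩ ⟨h', h''⟩; exact ⟨h.trans h', h''⟩
  · refine Set.eq_empty_of_forall_notMem fun f hf => ?_
    have h0 := hf.1 0 (show 0 < 2 by norm_num)
    have h1 := hf.1 1 (show 1 < 2 by norm_num)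
    exact hf.2 0 (show 0 < 2 by norm_num) 1 (show 1 < 2 by norm_num) (by norm_num)
      (Or.inl ⟨by norm_num, by norm_num⟩) (by omega)

/-! ### A member of an unshared degree -/

theorem swap_computable (a b : ℕ) : Computable (Equiv.swap a b : ℕ → ℕ) := by
  have h : Primrec (fun n : ℕ => if n = a then b else if n = b then a else n) :=
    Primrec.ite (Primrec.eq.comp Primrec.id (Primrec.const a)) (Primrec.const b)
      (Primrec.ite (Primrec.eq.comp Primrec.id (Primrec.const b)) (Primrec.const a) Primrec.id)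
  exact h.to_comp.of_eq fun n => (Equiv.swap_apply_def a b n).symm

theorem reducible_comp {π x : ℕ → ℕ} (hπ : Computable π) :
    TuringReducible ((fun n => π (x n) : ℕ → ℕ) : ℕ →. ℕ) (x : ℕ →. ℕ) := by
  have h1 : Nat.RecursiveIn {(x : ℕ →. ℕ)} (π : ℕ →. ℕ) :=
    RecursiveIn.iff_nat.1 (Partrec.turingReducible hπ.partrec)
  have h2 : Nat.RecursiveIn {(x : ℕ →. ℕ)} (x : ℕ →. ℕ) := Nat.RecursiveIn.oracle _ rfl
  have h3 := Nat.RecursiveIn.comp h1 h2
  refine RecursiveIn.iff_nat.2 ?_
  convert h3 using 1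
  funext n
  exact (Part.bind_some _ _).symm

theorem swap_equivalent (a b : ℕ) (x : ℕ → ℕ) :
    ((fun n => Equiv.swap a b (x n) : ℕ → ℕ) : ℕ →. ℕ) ≡ᵀ (x : ℕ →. ℕ) := by
  refine ⟨reducible_comp (swap_computable a b), ?_⟩
  have h := reducible_comp (x := fun n => Equiv.swap a b (x n)) (swap_computable a b)
  have e : (fun n => Equiv.swap a b ((fun n => Equiv.swap a b (x n)) n)) = x := by
    funext n
    exact Equiv.swap_apply_self a b (x n)
  rw [e] at h
  exact h

theorem swap_lt {a b k n : ℕ} (ha : a < k) (hb : b < k) (hn : n < k) : Equiv.swap a b n < k := by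
  rw [Equiv.swap_apply_def]
  split_ifs <;> assumption

/-- If a class is closed under exchanging two colours, then it is not represented by a set with
two members one of which has a degree of its own. -/
theorem unshared {D P : Set (ℕ → ℕ)}
    (hD : ∀ u ∈ D, ∀ v ∈ D, ∀ n, (fun m => Equiv.swap (u n) (v n) (u m)) ∈ D)
    {x : ℕ → ℕ} (hx : x ∈ P) (hex : ∃ y ∈ P, y ≠ x)
    (huni : ∀ y ∈ P, (y : ℕ →. ℕ) ≡ᵀ (x : ℕ →. ℕ) → y = x) : ¬ Represents P D := by
  rintro ⟨F, hF⟩
  obtain ⟨y, hy, hyx⟩ := hex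
  set u := F.symm ⟨x, hx⟩ with hu
  set v := F.symm ⟨y, hy⟩ with hv
  have huv : (u : ℕ → ℕ) ≠ v := by
    intro h
    have h1 : u = v := Subtype.ext h
    have h2 := F.symm.injective h1
    exact hyx (congrArg Subtype.val h2).symm
  obtain ⟨n, hn⟩ := Function.ne_iff.1 huv
  let w : D := ⟨fun m => Equiv.swap (u.1 n) (v.1 n) (u.1 m), hD u.1 u.2 v.1 v.2 n⟩
  have h1 : ((F w : ℕ → ℕ) : ℕ →. ℕ) ≡ᵀ ((w : ℕ → ℕ) : ℕ →. ℕ) := hF w
  have h2 : ((w : ℕ → ℕ) : ℕ →. ℕ) ≡ᵀ ((u : ℕ → ℕ) : ℕ →. ℕ) := swap_equivalent _ _ _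
  have h3 : ((F u : ℕ → ℕ) : ℕ →. ℕ) ≡ᵀ ((u : ℕ → ℕ) : ℕ →. ℕ) := hF u
  have h4 : ((F u : P) : ℕ → ℕ) = x := by rw [hu, Equiv.apply_symm_apply]
  rw [h4] at h3
  have h5 := TuringEquivalent.trans _ _ _ (TuringEquivalent.trans _ _ _ h1 h2)
    (TuringEquivalent.symm h3)
  have h6 := huni _ (F w).2 h5
  have h7 : F w = F u := Subtype.ext (h6.trans h4.symm)
  have h8 : w = u := F.injective h7
  have h9 : Equiv.swap (u.1 n) (v.1 n) (u.1 n) = u.1 n := congrFun (congrArg Subtype.val h8) n
  rw [Equiv.swap_apply_left] at h9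
  exact hn h9.symm

theorem enum_closed {dec : Set ℕ → (ℕ → ℕ → Prop) → ℕ → Set (ℕ → ℕ)}
    (hlt : ∀ A R k, ∀ f ∈ dec A R k, ∀ a ∈ A, f a < k)
    (hsw : ∀ A R k, ∀ f ∈ dec A R k, ∀ i j, i < k → j < k →
      (fun a => Equiv.swap i j (f a)) ∈ dec A R k)
    {A : Set ℕ} {R : ℕ → ℕ → Prop} {k : ℕ} {e : ℕ → ℕ} (he : Set.range e = A) :
    ∀ u ∈ viaEnum (dec A R k) e, ∀ v ∈ viaEnum (dec A R k) e, ∀ n,
      (fun m => Equiv.swap (u n) (v n) (u m)) ∈ viaEnum (dec A R k) e := by
  rintro u ⟨f, hf, hu⟩ v ⟨f', hf', hv⟩ n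
  have hn : e n ∈ A := he ▸ Set.mem_range_self n
  refine ⟨_, hsw A R k f hf (u n) (v n) ?_ ?_, fun m => ?_⟩
  · rw [hu]; exact hlt A R k f hf _ hn
  · rw [hv]; exact hlt A R k f' hf' _ hn
  · show Equiv.swap (u n) (v n) (u m) = Equiv.swap (u n) (v n) (f (e m))
    rw [hu m]

/-- **Which countable classes are classes of decompositions of a computable poset.**
(1) A countable computably bounded `Π⁰₁` class represents the class of decompositions into `k`
chains of some computable poset, for some `k ≥ 1`, if and only if it is finite; the same holds for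
antichains, and for both codings of the decompositions. (2) There are countably infinite
computably bounded `Π⁰₁` classes. (3) No countably infinite set of functions represents the class
of decompositions into `k` chains or into `k` antichains of any computable poset, for any `k`, in
either coding, and not even up to permutations of the `k` colours. (4) A set with at least two
members, one of which is not Turing equivalent to any other one, represents no class of
decompositions into chains or antichains. -/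
theorem result :
    (∀ P : Set (ℕ → ℕ), IsCBClass P → P.Countable →
      (Realized chainDecs P ↔ P.Finite) ∧ (RealizedEnum chainDecs P ↔ P.Finite) ∧
      (Realized antichainDecs P ↔ P.Finite) ∧ (RealizedEnum antichainDecs P ↔ P.Finite)) ∧
    (∃ P : Set (ℕ → ℕ), IsCBClass P ∧ P.Countable ∧ P.Infinite) ∧
    (∀ P : Set (ℕ → ℕ), P.Countable → P.Infinite →
      AvoidsAll chainDecs P ∧ AvoidsAll antichainDecs P) ∧
    (∀ P : Set (ℕ → ℕ), (∃ x ∈ P, (∃ y ∈ P, y ≠ x) ∧
        ∀ y ∈ P, (y : ℕ →. ℕ) ≡ᵀ (x : ℕ →. ℕ) → y = x) →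
      ¬ RealizedEnum chainDecs P ∧ ¬ RealizedEnum antichainDecs P) := by
  refine ⟨fun P h hc => ?_, ?_, fun P hc hi => ⟨avoids_chain hc hi, avoids_antichain hc hi⟩,
    fun P hP => ?_⟩
  · have hf : ∀ {dec : Set ℕ → (ℕ → ℕ → Prop) → ℕ → Set (ℕ → ℕ)},
        (P.Infinite → AvoidsAll dec P) →
        (P.Finite → Realized dec P ∧ RealizedEnum dec P) →
        (Realized dec P ↔ P.Finite) ∧ (RealizedEnum dec P ↔ P.Finite) := by
      intro dec h1 h2
      refine ⟨⟨?_, fun h => (h2 h).1⟩, ⟨?_, fun h => (h2 h).2⟩⟩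
      · rintro ⟨A, R, k, hA, -, hr⟩
        by_contra hi
        exact (h1 hi A R hA k).1.1 hr
      · rintro ⟨A, R, k, e, hA, -, -, he, hr⟩
        by_contra hi
        exact ((h1 hi A R hA k).2 e he).1 hr
    have h1 := hf (avoids_chain hc) (realize chain_single chain_empty h)
    have h2 := hf (avoids_antichain hc) (realize antichain_single antichain_empty h)
    exact ⟨h1.1, h1.2, h2.1, h2.2⟩
  · exact ⟨_, ChainNegative.T1_cb, ChainNegative.paths_T1_countable,
      ChainNegative.paths_T1_infinite⟩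
  · obtain ⟨x, hx, hex, huni⟩ := hP
    constructor
    · rintro ⟨A, R, k, e, -, -, -, he, hr⟩
      refine unshared (enum_closed (dec := chainDecs) (fun _ _ _ _ hf => hf.1) ?_ he) hx hex
        huni hr
      intro A R k f hf i j hi hj
      exact ⟨fun a ha => swap_lt hi hj (hf.1 a ha),
        fun a ha b hb hab => hf.2 a ha b hb ((Equiv.swap i j).injective hab)⟩
    · rintro ⟨A, R, k, e, -, -, -, he, hr⟩
      refine unshared (enum_closed (dec := antichainDecs) (fun _ _ _ _ hf => hf.1) ?_ he) hx hex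
        huni hr
      intro A R k f hf i j hi hj
      exact ⟨fun a ha => swap_lt hi hj (hf.1 a ha),
        fun a ha b hb hne hab heq => hf.2 a ha b hb hne hab ((Equiv.swap i j).injective heq)⟩

end Pool.Agent.Results.MP_233b81_lc.CountableClasses
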